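import Pool.Agent.H12.KG.Targets
import Pool.Agent.H34.KP.NAK
import Pool.Agent.H60.KP.FINPT

/-!
# Project KEW, block G, row UNQ: a horizontal curve has only one closed point
-/

set_option autoImplicit false

namespace Pool.Agent.H29.KG

open Pool.Agent.H12.KP Pool.Agent.H12.KG

universe u

section

variable {A : Type u} {D : Type u} [CommRing A] [CommRing D] [IsDomain D] [Algebra A D]
  (𝒟 : ℕ → Submodule A D) [GradedAlgebra 𝒟] (L : Type u) [Field L] [Algebra D L]
  [IsFractionRing D L] [Algebra A L] [IsScalarTower A D L]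

/-- The prime ideal of the chart which belongs to a prime `P` with `f ∉ P`. -/
def chId (f : D) (Δ : ℕ) (hf : f ∈ 𝒟 Δ) (P : Ideal D) : Ideal (ChartA 𝒟 L f Δ hf) where
  carrier := {z | ∃ k : ℕ, ∃ a ∈ 𝒟 (k * Δ), a ∈ P ∧
    (z : L) * algebraMap D L f ^ k = algebraMap D L a}
  zero_mem' := ⟨0, 0, zero_mem _, zero_mem _, by simp⟩
  add_mem' := by
    rintro x y ⟨k, a, ha, haP, hx⟩ ⟨k', a', ha', haP', hy⟩
    refine ⟨k + k', a * f ^ k' + a' * f ^ k, ?_, ?_, ?_⟩
    · refine Submodule.add_mem _ ?_ ?_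
      · rw [add_mul]
        have := SetLike.pow_mem_graded k' hf
        rw [smul_eq_mul] at this
        exact SetLike.mul_mem_graded ha this
      · rw [add_mul, add_comm]
        have := SetLike.pow_mem_graded k hf
        rw [smul_eq_mul] at this
        exact SetLike.mul_mem_graded ha' this
    · exact add_mem (Ideal.mul_mem_right _ _ haP) (Ideal.mul_mem_right _ _ haP')
    · rw [map_add, map_mul, map_mul, map_pow, map_pow, ← hx, ← hy, pow_add]
      push_cast
      ring
  smul_mem' := by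
    rintro c x ⟨k, a, ha, haP, hx⟩
    obtain ⟨k', a', ha', hc⟩ := c.2
    refine ⟨k' + k, a' * a, ?_, Ideal.mul_mem_left _ _ haP, ?_⟩
    · rw [add_mul]
      exact SetLike.mul_mem_graded ha' ha
    · rw [map_mul, ← hx, ← hc, pow_add, smul_eq_mul]
      push_cast
      ring

variable {f : D} {Δ : ℕ} (hf : f ∈ 𝒟 Δ) {P : Ideal D}

theorem mem_chId {z : ChartA 𝒟 L f Δ hf} : z ∈ chId 𝒟 L f Δ hf P ↔
    ∃ k : ℕ, ∃ a ∈ 𝒟 (k * Δ), a ∈ P ∧ (z : L) * algebraMap D L f ^ k = algebraMap D L a :=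
  Iff.rfl

include hf in
theorem chId_prime (hP : P.IsPrime) (hfP : f ∉ P) : (chId 𝒟 L f Δ hf P).IsPrime := by
  have hinj : Function.Injective (algebraMap D L) := IsFractionRing.injective D L
  refine ⟨?_, ?_⟩
  · intro h
    have h1 : (1 : ChartA 𝒟 L f Δ hf) ∈ chId 𝒟 L f Δ hf P := by
      rw [h]
      trivial
    obtain ⟨k, a, _, haP, h2⟩ := h1
    have h3 : f ^ k = a := by
      apply hinj
      rw [map_pow, ← h2]
      simp
    rw [← h3] at haP
    exact hfP (hP.mem_of_pow_mem _ haP)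
  · intro x y hxy
    obtain ⟨k, a, ha, hx⟩ := x.2
    obtain ⟨k', a', ha', hy⟩ := y.2
    obtain ⟨m, c, _, hcP, hc⟩ := hxy
    have h3 : a * a' * f ^ m = c * f ^ (k + k') := by
      apply hinj
      rw [map_mul, map_mul, map_mul, map_pow, map_pow, ← hx, ← hy, ← hc, pow_add]
      push_cast
      ring
    have h4 : a * a' * f ^ m ∈ P := by
      rw [h3]
      exact Ideal.mul_mem_right _ _ hcP
    rcases hP.mem_or_mem h4 with h5 | h5
    · rcases hP.mem_or_mem h5 with h6 | h6
      · exact Or.inl ⟨k, a, ha, h6, hx⟩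
      · exact Or.inr ⟨k', a', ha', h6, hy⟩
    · exact absurd (hP.mem_of_pow_mem _ h5) hfP

include hf in
/-- The chart is a finite module. -/
theorem chart_finite (hΔ : 0 < Δ) (hf0 : f ≠ 0) (hfg : ∀ n, (𝒟 n).FG) (d0 : ℕ)
    (h0 : ∀ d, d0 ≤ d → ∀ z ∈ 𝒟 (d + Δ), ∃ z' ∈ 𝒟 d, z = f * z') :
    Module.Finite A (ChartA 𝒟 L f Δ hf) := by
  have hinj : Function.Injective (algebraMap D L) := IsFractionRing.injective D L
  have hfL : algebraMap D L f ≠ 0 := by
    intro h
    exact hf0 (hinj (by rw [h, map_zero]))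
  -- every element is `a / f ^ d0`
  have key : ∀ k : ℕ, ∀ z : L, ∀ a ∈ 𝒟 (k * Δ), z * algebraMap D L f ^ k = algebraMap D L a →
      ∃ a' ∈ 𝒟 (d0 * Δ), z * algebraMap D L f ^ d0 = algebraMap D L a' := by
    intro k
    induction k with
    | zero =>
      intro z a ha hz
      refine ⟨a * f ^ d0, ?_, ?_⟩
      · have h1 := SetLike.pow_mem_graded d0 hf
        rw [smul_eq_mul] at h1
        have h2 := SetLike.mul_mem_graded ha h1
        rwa [zero_mul, zero_add] at h2
      · rw [map_mul, map_pow, ← hz]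
        ring
    | succ k ih =>
      intro z a ha hz
      by_cases hk : d0 ≤ k * Δ
      · rw [Nat.succ_mul] at ha
        obtain ⟨z', hz', h1⟩ := h0 (k * Δ) hk a ha
        refine ih z z' hz' ?_
        have h2 : algebraMap D L f * (z * algebraMap D L f ^ k) =
            algebraMap D L f * algebraMap D L z' := by
          rw [← map_mul, ← h1, ← hz, pow_succ]
          ring
        exact mul_left_cancel₀ hfL h2
      · push Not at hk
        have hkd : k + 1 ≤ d0 := by
          have : k * 1 ≤ k * Δ := Nat.mul_le_mul_left k hΔ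
          omega
        refine ⟨a * f ^ (d0 - (k + 1)), ?_, ?_⟩
        · have h1 := SetLike.pow_mem_graded (d0 - (k + 1)) hf
          rw [smul_eq_mul] at h1
          have h2 := SetLike.mul_mem_graded ha h1
          rw [← add_mul, Nat.add_sub_cancel' hkd] at h2
          exact h2
        · rw [map_mul, map_pow, ← hz]
          nth_rewrite 1 [← Nat.add_sub_cancel' hkd]
          rw [pow_add]
          ring
  -- the linear map `a ↦ a / f ^ d0`
  let φ : 𝒟 (d0 * Δ) →ₗ[A] L :=
    { toFun := fun a => algebraMap D L a * (algebraMap D L f ^ d0)⁻¹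
      map_add' := by
        intro x y
        show algebraMap D L ((x : D) + (y : D)) * _ = _
        rw [map_add]
        ring
      map_smul' := by
        intro c x
        simp only [Submodule.coe_smul, RingHom.id_apply]
        rw [Algebra.smul_def c (x : D), map_mul, ← IsScalarTower.algebraMap_apply A D L,
          Algebra.smul_def]
        ring }
  have hfin : Module.Finite A (𝒟 (d0 * Δ)) := Module.Finite.iff_fg.2 (hfg _)
  have hle : Subalgebra.toSubmodule (ChartA 𝒟 L f Δ hf) = LinearMap.range φ := by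
    apply le_antisymm
    · rintro z ⟨k, a, ha, hz⟩
      obtain ⟨a', ha', h1⟩ := key k z a ha hz
      refine ⟨⟨a', ha'⟩, ?_⟩
      show algebraMap D L a' * (algebraMap D L f ^ d0)⁻¹ = z
      rw [← h1]
      field_simp
    · rintro _ ⟨a, rfl⟩
      refine ⟨d0, a, a.2, ?_⟩
      show algebraMap D L a * (algebraMap D L f ^ d0)⁻¹ * algebraMap D L f ^ d0 = _
      field_simp
  have h1 : (Subalgebra.toSubmodule (ChartA 𝒟 L f Δ hf)).FG := by
    rw [hle]
    exact Module.Finite.iff_fg.1 (Module.Finite.range φ)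
  exact Module.Finite.iff_fg.2 h1

open Classical in
include hf in
theorem le_of_chId (hΔ : 0 < Δ) (hf0 : f ≠ 0) {Q : Ideal D} (hP : P.IsHomogeneous 𝒟)
    (hQ : Q.IsPrime) (hfQ : f ∉ Q) (heq : chId 𝒟 L f Δ hf P ≤ chId 𝒟 L f Δ hf Q) : P ≤ Q := by
  have hinj : Function.Injective (algebraMap D L) := IsFractionRing.injective D L
  have hfL : algebraMap D L f ≠ 0 := by
    intro h
    exact hf0 (hinj (by rw [h, map_zero]))
  intro a ha
  have hhomQ : ∀ i, (DirectSum.decompose 𝒟 a i : D) ∈ Q := by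
    intro d
    obtain ⟨b, hb⟩ : ∃ b : D, b = (DirectSum.decompose 𝒟 a d : D) := ⟨_, rfl⟩
    have hbd : b ∈ 𝒟 d := by
      rw [hb]
      exact (DirectSum.decompose 𝒟 a d).2
    have hbP : b ∈ P := by
      rw [hb]
      exact hP d ha
    rw [← hb]
    have hpw : b ^ Δ ∈ 𝒟 (d * Δ) := by
      have := SetLike.pow_mem_graded Δ hbd
      rwa [smul_eq_mul, mul_comm] at this
    have hval : algebraMap D L (b ^ Δ) * (algebraMap D L f ^ d)⁻¹ * algebraMap D L f ^ d =
        algebraMap D L (b ^ Δ) := by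
      field_simp
    have hz : (⟨algebraMap D L (b ^ Δ) * (algebraMap D L f ^ d)⁻¹, ⟨d, b ^ Δ, hpw, hval⟩⟩ :
        ChartA 𝒟 L f Δ hf) ∈ chId 𝒟 L f Δ hf P :=
      ⟨d, b ^ Δ, hpw, Ideal.pow_mem_of_mem P hbP Δ hΔ, hval⟩
    obtain ⟨k, c, _, hcQ, hc⟩ := heq hz
    have hc' : algebraMap D L (b ^ Δ) * (algebraMap D L f ^ d)⁻¹ * algebraMap D L f ^ k =
        algebraMap D L c := hc
    have h3 : b ^ Δ * f ^ k = c * f ^ d := by
      apply hinj
      rw [map_mul, map_mul, ← hc', map_pow (algebraMap D L) f k, map_pow (algebraMap D L) f d]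
      field_simp
    have h4 : b ^ Δ * f ^ k ∈ Q := by
      rw [h3]
      exact Ideal.mul_mem_right _ _ hcQ
    rcases hQ.mem_or_mem h4 with h5 | h5
    · exact hQ.mem_of_pow_mem _ h5
    · exact absurd (hQ.mem_of_pow_mem _ h5) hfQ
  have hsum := DirectSum.sum_support_decompose 𝒟 a
  rw [← hsum]
  exact sum_mem fun i _ => hhomQ i

end

theorem pf_UNQ (hAV : S_AVOID.{u, u}) (hNK : S_NAK.{u, u}) (hL : S_LOCH.{u}) : S_UNQ.{u} := by
  intro A D _ _ _ _ _ _ _ _ 𝒟 _ hfg hgen π hπ hπ0 hdim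
  have hfg' : ∀ n, (𝒟 n).FG := Pool.Agent.H34.KP.graded_fg 𝒟 hgen hfg
  -- `D` is noetherian
  have hft : Algebra.FiniteType A D := by
    obtain ⟨S, hS⟩ := hfg
    refine ⟨S, ?_⟩
    rw [eq_top_iff, ← hgen]
    refine Algebra.adjoin_le ?_
    rw [← hS]
    exact Algebra.span_le_adjoin A _
  have hnoe : IsNoetherianRing D := Algebra.FiniteType.isNoetherianRing A D
  -- the relevant primes over `π` are finite in number
  have hrel : ∀ P : Ideal D, Rel 𝒟 P → algebraMap A D π ∈ P →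
      P ∈ (Ideal.span {algebraMap A D π}).minimalPrimes := by
    intro P hP hπP
    have hPp := hP.1
    obtain ⟨y, hy1, hy2⟩ := Ideal.exists_minimalPrimes_le
      (show Ideal.span {algebraMap A D π} ≤ P from
        (Ideal.span_singleton_le_iff_mem P).2 hπP)
    have hyh : y.IsHomogeneous 𝒟 := Pool.Agent.H60.KP.homogeneous_of_minimal 𝒟 (by
      intro x hx
      rw [Set.mem_singleton_iff] at hx
      rw [hx]
      exact ⟨0, SetLike.algebraMap_mem_graded 𝒟 π⟩) hy1
    have hyr : Rel 𝒟 y := ⟨hy1.1.1, hyh, fun h => hP.2.2 (h.trans hy2)⟩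
    have hyπ : algebraMap A D π ∈ y := hy1.1.2 (Ideal.mem_span_singleton_self _)
    have hy0 : y ≠ ⊥ := by
      rintro rfl
      exact hπ0 (by simpa using hyπ)
    have hyc := hdim y hyr hy0
    rw [hyc.2.2 P hP hy2]
    exact hy1
  have hfin : {P : Ideal D | Rel 𝒟 P ∧ algebraMap A D π ∈ P}.Finite :=
    (Ideal.finite_minimalPrimes_of_isNoetherianRing D
      (Ideal.span {algebraMap A D π})).subset fun P hP => hrel P hP.1 hP.2
  -- `f`
  obtain ⟨Δ, hΔ, f, hf, _, hfP⟩ := hAV A D 𝒟 ⊤ (Ideal.IsHomogeneous.top 𝒟) hfin.toFinset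
    (fun P hP => ((Set.Finite.mem_toFinset _).1 hP).1)
    (fun P hP h => ((Set.Finite.mem_toFinset _).1 hP).1.1.ne_top (top_le_iff.1 h))
  have hfP' : ∀ P : Ideal D, Rel 𝒟 P → algebraMap A D π ∈ P → f ∉ P := fun P h1 h2 =>
    hfP P ((Set.Finite.mem_toFinset _).2 ⟨h1, h2⟩)
  have hπm : π ∈ IsLocalRing.maximalIdeal A := hπ.not_isUnit
  obtain ⟨d0, hd0⟩ := hNK A D 𝒟 π hπm hfg hgen Δ hΔ f hf f hf
    (fun P h1 h2 h3 => absurd h3 (hfP' P h1 h2))
  -- the charts
  have hinjA : Function.Injective (algebraMap A D) := by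
    rw [injective_iff_map_eq_zero]
    intro a ha
    by_contra hne
    obtain ⟨n, hn⟩ := IsDiscreteValuationRing.associated_pow_irreducible hne hπ
    obtain ⟨v, hv⟩ := hn
    have h1 : algebraMap A D π ^ n = 0 := by
      rw [← map_pow, ← hv, map_mul, ha, zero_mul]
    exact pow_ne_zero n hπ0 h1
  intro P Q hPc hQc
  have hf0 : f ≠ 0 := by
    rintro rfl
    exact hfP' P hPc.1 hPc.2.1 (zero_mem P)
  let L := FractionRing D
  have hinj : Function.Injective (algebraMap D L) := IsFractionRing.injective D L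
  have hfin2 : Module.Finite A (ChartA 𝒟 L f Δ hf) := by
    refine chart_finite 𝒟 L hf hΔ hf0 hfg' d0 ?_
    intro d hd z hz
    obtain ⟨z0, hz0, z1, hz1, h⟩ := hd0 d hd z hz
    exact ⟨z0 + z1, add_mem hz0 hz1, by rw [h]; ring⟩
  have hinjB : Function.Injective (algebraMap A (ChartA 𝒟 L f Δ hf)) := by
    intro x y hxy
    have h1 : algebraMap A L x = algebraMap A L y := congrArg Subtype.val hxy
    rw [IsScalarTower.algebraMap_apply A D L, IsScalarTower.algebraMap_apply A D L] at h1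
    exact hinjA (hinj h1)
  have hloc : IsLocalRing (ChartA 𝒟 L f Δ hf) := hL A _ hinjB
  have hint : Algebra.IsIntegral A (ChartA 𝒟 L f Δ hf) := Algebra.IsIntegral.of_finite A _
  -- the ideals of the chart
  have hmax : ∀ R : Ideal D, Clo 𝒟 π R →
      chId 𝒟 L f Δ hf R = IsLocalRing.maximalIdeal (ChartA 𝒟 L f Δ hf) := by
    intro R hR
    have hpr : (chId 𝒟 L f Δ hf R).IsPrime :=
      chId_prime 𝒟 L hf hR.1.1 (hfP' R hR.1 hR.2.1)
    have hcm : ((chId 𝒟 L f Δ hf R).comap (algebraMap A (ChartA 𝒟 L f Δ hf))).IsMaximal := by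
      have hp : ((chId 𝒟 L f Δ hf R).comap (algebraMap A (ChartA 𝒟 L f Δ hf))).IsPrime :=
        Ideal.comap_isPrime _ _
      have hmem : π ∈ (chId 𝒟 L f Δ hf R).comap (algebraMap A (ChartA 𝒟 L f Δ hf)) := by
        rw [Ideal.mem_comap]
        refine ⟨0, algebraMap A D π, ?_, hR.2.1, ?_⟩
        · rw [zero_mul]
          exact SetLike.algebraMap_mem_graded 𝒟 π
        · rw [pow_zero, mul_one, ← IsScalarTower.algebraMap_apply A D L]
          rfl
      have hne : (chId 𝒟 L f Δ hf R).comap (algebraMap A (ChartA 𝒟 L f Δ hf)) ≠ ⊥ := by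
        intro h
        rw [h] at hmem
        exact hπ.ne_zero (by simpa using hmem)
      exact IsPrime.to_maximal_ideal hne
    have hm : (chId 𝒟 L f Δ hf R).IsMaximal :=
      Ideal.isMaximal_of_isIntegral_of_isMaximal_comap _ hcm
    exact IsLocalRing.eq_maximalIdeal hm
  have heq : chId 𝒟 L f Δ hf P = chId 𝒟 L f Δ hf Q := (hmax P hPc).trans (hmax Q hQc).symm
  have hle : P ≤ Q := le_of_chId 𝒟 L hf hΔ hf0 hPc.1.2.1 hQc.1.1
    (hfP' Q hQc.1 hQc.2.1) heq.le
  exact (hPc.2.2 Q hQc.1 hle).symm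

end Pool.Agent.H29.KG
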